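import Pool.Agent.H33.SMS.Targets

/-!
Row DIF of the board sms (MP_ec36a5_nt): first difference of the elementary symmetric functions of
the exponential series.
-/

set_option autoImplicit false

namespace Pool.Agent.H89.SMS

open Pool.Agent.H33.SMS Pool.Agent.H14.MT PowerSeries

theorem coeff0_esymm (A : Multiset ℚ) (j : ℕ) :
    coeff 0 ((A.map ex).esymm j) = ((Multiset.card A).choose j : ℚ) := by
  have h : ((sums j A).map ex).sum = EE (sums j A) := rfl
  rw [esymm_ex, h, coeff_zero_EE]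
  unfold sums
  rw [Multiset.card_map, Multiset.card_powersetCard]

theorem DD_zero (k : ℕ) (f : ℚ⟦X⟧) : DD k f f 0 := ⟨fun _ _ => rfl, sub_self _⟩

theorem DD_sum {k : ℕ} (f g : ℕ → ℚ⟦X⟧) (d : ℕ → ℚ) : ∀ s : ℕ,
    (∀ i < s, DD k (f i) (g i) (d i)) →
    DD k (∑ i ∈ Finset.range s, f i) (∑ i ∈ Finset.range s, g i) (∑ i ∈ Finset.range s, d i) := by
  intro s
  induction s with
  | zero =>
    intro _
    rw [Finset.sum_range_zero, Finset.sum_range_zero, Finset.sum_range_zero]
    exact DD_zero k 0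
  | succ s ih =>
    intro h
    rw [Finset.sum_range_succ, Finset.sum_range_succ, Finset.sum_range_succ]
    exact (ih fun i hi => h i (by omega)).add (h s (by omega))

theorem coeff0_resc (c : ℚ) (A : Multiset ℚ) :
    coeff 0 (rescale c (EE A)) = (Multiset.card A : ℚ) := by
  rw [coeff_rescale, pow_zero, one_mul, coeff_zero_EE]

theorem term_eq (i : ℕ) (a b : ℚ⟦X⟧) : (-1) ^ i * a * b = C ((-1 : ℚ) ^ i) * (a * b) := by
  rw [map_pow, map_neg, map_one, mul_assoc]

theorem pf_DIF (hN : T_NEW) (hG : T_GRC) : T_DIF := by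
  intro n s k A B δ hA hB h
  induction s using Nat.strong_induction_on with
  | _ s ih =>
    rcases Nat.eq_zero_or_pos s with hs | hs
    · subst hs
      rw [esymm_zero', esymm_zero']
      have h0 : G n 0 k = 0 := by unfold G; rw [Finset.sum_range_zero]
      rw [h0, Int.cast_zero, zero_mul]
      exact DD_zero _ _
    · have hs' : (s : ℚ) ≠ 0 := by exact_mod_cast hs.ne'
      have key : DD (k + 1) ((s : ℚ⟦X⟧) * (A.map ex).esymm s) ((s : ℚ⟦X⟧) * (B.map ex).esymm s)
          (∑ i ∈ Finset.range s, (-1 : ℚ) ^ i * ((G n (s - 1 - i) k : ℚ) * δ * n +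
            (n.choose (s - 1 - i) : ℚ) * (((i : ℚ) + 1) ^ (k + 1) * δ))) := by
        rw [hN _ (A.map ex) s, hN _ (B.map ex) s]
        refine DD_sum (fun i => (-1) ^ i * (A.map ex).esymm (s - 1 - i) * ps (A.map ex) (i + 1))
          (fun i => (-1) ^ i * (B.map ex).esymm (s - 1 - i) * ps (B.map ex) (i + 1))
          (fun i => (-1 : ℚ) ^ i * ((G n (s - 1 - i) k : ℚ) * δ * n +
            (n.choose (s - 1 - i) : ℚ) * (((i : ℚ) + 1) ^ (k + 1) * δ))) s ?_
        intro i hi
        rw [term_eq, term_eq]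
        apply DD.cmul
        rw [ps_ex, ps_ex]
        have h1 := ih (s - 1 - i) (by omega)
        have h2 := h.resc (((i + 1 : ℕ) : ℚ))
        have h3 := DD.mul (Nat.succ_pos k) h1 h2
        rw [coeff0_resc, coeff0_esymm, hA, hB] at h3
        push_cast at h3
        push_cast
        exact h3
      have hval : (∑ i ∈ Finset.range s, (-1 : ℚ) ^ i * ((G n (s - 1 - i) k : ℚ) * δ * n +
            (n.choose (s - 1 - i) : ℚ) * (((i : ℚ) + 1) ^ (k + 1) * δ))) =
          (s : ℚ) * ((G n s k : ℚ) * δ) := by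
        have h4 : ((s : ℚ) * (G n s k : ℚ)) = ∑ i ∈ Finset.range s,
            (-1) ^ i * ((n : ℚ) * (G n (s - 1 - i) k : ℚ) +
              ((i : ℚ) + 1) ^ (k + 1) * (n.choose (s - 1 - i) : ℚ)) := by
          exact_mod_cast hG n s k
        rw [← mul_assoc, h4, Finset.sum_mul]
        refine Finset.sum_congr rfl fun i _ => ?_
        ring
      rw [hval] at key
      have h5 := key.cmul (1 / (s : ℚ))
      have h6 : ∀ f : ℚ⟦X⟧, C (1 / (s : ℚ)) * ((s : ℚ⟦X⟧) * f) = f := by
        intro f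
        have h7 : (s : ℚ⟦X⟧) = C (s : ℚ) := by rw [map_natCast]
        rw [h7, ← mul_assoc, ← map_mul, one_div, inv_mul_cancel₀ hs', map_one, one_mul]
      rw [h6, h6] at h5
      have h8 : 1 / (s : ℚ) * ((s : ℚ) * ((G n s k : ℚ) * δ)) = (G n s k : ℚ) * δ := by
        field_simp
      rw [h8] at h5
      exact h5

end Pool.Agent.H89.SMS
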